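import Mathlib

set_option autoImplicit false

namespace Pool.Agent.MP_21f624_an

open Set Metric MeasureTheory Filter Topology

/-- Infinitely many distinct radii in `(0, ε)` for which the boundary of the thickening is null. -/
theorem exists_radii (B : Set ℂ) {ε : ℝ} (hε : 0 < ε) :
    ∃ r : ℕ → ℝ, Function.Injective r ∧ ∀ n, 0 < r n ∧ r n < ε ∧
      (volume : Measure ℂ) (frontier (thickening (r n) B)) = 0 := by
  have key : ∀ n : ℕ, ∃ r ∈ Ioo (ε / (n + 2)) (ε / (n + 1)),
      (volume : Measure ℂ) (frontier (thickening r B)) = 0 := by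
    intro n
    have h : ε / ((n : ℝ) + 2) < ε / ((n : ℝ) + 1) := by
      apply div_lt_div_of_pos_left hε (by positivity) (by linarith)
    obtain ⟨r, hr, h0⟩ := exists_null_frontier_thickening (volume : Measure ℂ) B h
    exact ⟨r, hr, h0⟩
  choose r hr h0 using key
  have hanti : StrictAnti r := by
    apply strictAnti_nat_of_succ_lt
    intro n
    have h1 := (hr n).1
    have h2 := (hr (n + 1)).2
    push_cast at h2
    have h3 : (n : ℝ) + 1 + 1 = n + 2 := by ring
    rw [h3] at h2
    exact h2.trans h1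
  refine ⟨r, hanti.injective, fun n => ⟨?_, ?_, h0 n⟩⟩
  · exact lt_trans (by positivity) (hr n).1
  · refine lt_of_lt_of_le (hr n).2 ?_
    apply div_le_self hε.le
    have : (0 : ℝ) ≤ n := Nat.cast_nonneg n
    linarith

/-- One-variable maximum principle on the thickening of a bounded set. -/
theorem norm_le_of_frontier {A : Set ℂ} (hA : IsCompact A) {r : ℝ} (hr : 0 < r)
    {f : ℂ → ℂ} (hf : Differentiable ℂ f) {M : ℝ}
    (hM : ∀ z ∈ frontier (thickening r A), ‖f z‖ ≤ M) {a : ℂ} (ha : a ∈ A) : ‖f a‖ ≤ M := by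
  refine Complex.norm_le_of_forall_mem_frontier_norm_le (U := thickening r A) ?_ ?_ hM ?_
  · exact hA.isBounded.thickening
  · exact hf.diffContOnCl
  · exact subset_closure (self_subset_thickening hr A ha)

theorem frontier_subset_cthickening {A : Set ℂ} {r ε : ℝ} (h : r ≤ ε) :
    frontier (thickening r A) ⊆ cthickening ε A := by
  refine (frontier_subset_closure).trans ?_
  exact (closure_thickening_subset_cthickening r A).trans (cthickening_mono h A)

theorem isCompact_frontier {A : Set ℂ} (hA : IsCompact A) (r : ℝ) :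
    IsCompact (frontier (thickening r A)) := by
  apply Metric.isCompact_of_isClosed_isBounded isClosed_frontier
  exact (hA.isBounded.cthickening (δ := r)).subset
    (frontier_subset_cthickening le_rfl)

/-- Cutting one piece: a product `A × B` of compact sets lies in the hull of a finite disjoint
family of products of null compact sets of small diameter, all close to `A × B`. -/
theorem piece {A B : Set ℂ} (hA : IsCompact A) (hB : IsCompact B) {ε : ℝ} (hε : 0 < ε) :
    ∃ (ι : Type) (_ : Finite ι) (A' B' : ι → Set ℂ),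
      (∀ i, IsCompact (A' i)) ∧ (∀ i, IsCompact (B' i)) ∧
      (Pairwise fun i j => Disjoint (A' i ×ˢ B' i) (A' j ×ˢ B' j)) ∧
      (∀ i, A' i ⊆ cthickening ε A) ∧ (∀ i, B' i ⊆ cthickening ε B) ∧
      (∀ i, (volume : Measure ℂ) (A' i) = 0) ∧ (∀ i, (volume : Measure ℂ) (B' i) = 0) ∧
      (∀ i, ∀ x ∈ A' i, ∀ y ∈ A' i, dist x y ≤ 4 * ε) ∧
      (∀ i, ∀ x ∈ B' i, ∀ y ∈ B' i, dist x y ≤ 4 * ε) ∧
      (∀ f : ℂ × ℂ → ℂ, Differentiable ℂ f → ∀ M : ℝ,
        (∀ i, ∀ x ∈ A' i ×ˢ B' i, ‖f x‖ ≤ M) → ∀ x ∈ A ×ˢ B, ‖f x‖ ≤ M) := by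
  classical
  -- first cut
  obtain ⟨t, htA, htfin, hcov⟩ := hA.finite_cover_balls hε
  have : Finite t := htfin
  obtain ⟨r, hrinj, hr⟩ := exists_radii B hε
  obtain ⟨e, he⟩ := exists_injective_nat t
  -- the first family
  let A1 : t → Set ℂ := fun x => A ∩ closedBall x.1 ε
  let B1 : t → Set ℂ := fun x => frontier (thickening (r (e x)) B)
  have hA1 : ∀ x, IsCompact (A1 x) := fun x => hA.inter_right isClosed_closedBall
  have hB1 : ∀ x, IsCompact (B1 x) := fun x => isCompact_frontier hB _
  -- second cut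
  have h2 : ∀ x : t, ∃ s : Set ℂ, s ⊆ B1 x ∧ s.Finite ∧ B1 x ⊆ ⋃ y ∈ s, ball y ε :=
    fun x => (hB1 x).finite_cover_balls hε
  choose s hsB hsfin hscov using h2
  have h3 : ∀ x : t, ∃ r' : ℕ → ℝ, Function.Injective r' ∧ ∀ n, 0 < r' n ∧ r' n < ε ∧
      (volume : Measure ℂ) (frontier (thickening (r' n) (A1 x))) = 0 :=
    fun x => exists_radii (A1 x) hε
  choose r' hr'inj hr' using h3
  have h4 : ∀ x : t, ∃ e' : s x → ℕ, Function.Injective e' := by
    intro x
    have : Finite (s x) := hsfin x
    exact exists_injective_nat (s x)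
  choose e' he' using h4
  have : ∀ x : t, Finite (s x) := fun x => hsfin x
  refine ⟨Σ x : t, s x, inferInstance,
    fun p => frontier (thickening (r' p.1 (e' p.1 p.2)) (A1 p.1)),
    fun p => B1 p.1 ∩ closedBall p.2.1 ε, ?_, ?_, ?_, ?_, ?_, ?_, ?_, ?_, ?_, ?_⟩
  · intro p
    exact isCompact_frontier (hA1 _) _
  · intro p
    exact (hB1 _).inter_right isClosed_closedBall
  · rintro ⟨x, y⟩ ⟨x', y'⟩ hne
    rw [Set.disjoint_prod]
    by_cases hx : x = x'
    · subst hx
      left
      have hy : y ≠ y' := by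
        rintro rfl
        exact hne rfl
      exact frontier_thickening_disjoint (A1 x)
        (fun h => hy (he' x (hr'inj x h)))
    · right
      have hd : Disjoint (B1 x) (B1 x') :=
        frontier_thickening_disjoint B (fun h => hx (he (hrinj h)))
      exact hd.mono inter_subset_left inter_subset_left
  · intro p
    refine (frontier_subset_cthickening (hr' p.1 _).2.1.le).trans ?_
    exact cthickening_subset_of_subset ε inter_subset_left
  · intro p
    refine inter_subset_left.trans ?_
    exact frontier_subset_cthickening (hr _).2.1.le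
  · intro p
    exact (hr' p.1 _).2.2
  · intro p
    exact measure_mono_null inter_subset_left (hr _).2.2
  · intro p
    have hsub : frontier (thickening (r' p.1 (e' p.1 p.2)) (A1 p.1)) ⊆
        closedBall p.1.1 (ε + ε) := by
      refine frontier_subset_closure.trans (closure_minimal ?_ isClosed_closedBall)
      intro z hz
      obtain ⟨a, ha, hza⟩ := mem_thickening_iff.1 hz
      have h1 := ha.2
      rw [mem_closedBall] at h1 ⊢
      have h2 := (hr' p.1 (e' p.1 p.2)).2.1
      have := dist_triangle z a p.1.1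
      linarith
    intro x hx y hy
    have h1 := hsub hx
    have h2 := hsub hy
    rw [mem_closedBall] at h1 h2
    have := dist_triangle_right x y p.1.1
    linarith
  · intro p x hx y hy
    have h1 := hx.2
    have h2 := hy.2
    rw [mem_closedBall] at h1 h2
    have := dist_triangle_right x y p.2.1
    linarith
  · intro f hf M hM x hx
    obtain ⟨z, w⟩ := x
    obtain ⟨hz, hw⟩ := hx
    simp only at hz hw
    obtain ⟨c, hc, hzc⟩ := mem_iUnion₂.1 (hcov hz)
    have hz1 : z ∈ A1 ⟨c, hc⟩ := ⟨hz, ball_subset_closedBall hzc⟩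
    refine norm_le_of_frontier (f := fun w => f (z, w)) hB (hr (e ⟨c, hc⟩)).1 ?_ ?_ hw
    · exact hf.comp ((differentiable_const z).prodMk differentiable_id)
    · intro w' hw'
      obtain ⟨d, hd, hwd⟩ := mem_iUnion₂.1 (hscov ⟨c, hc⟩ hw')
      refine norm_le_of_frontier (f := fun z => f (z, w')) (hA1 ⟨c, hc⟩)
        (hr' ⟨c, hc⟩ (e' ⟨c, hc⟩ ⟨d, hd⟩)).1 ?_ ?_ hz1
      · exact hf.comp (differentiable_id.prodMk (differentiable_const w'))
      · intro z' hz'
        exact hM ⟨⟨c, hc⟩, ⟨d, hd⟩⟩ (z', w') ⟨hz', hw', ball_subset_closedBall hwd⟩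

end Pool.Agent.MP_21f624_an
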