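import Mathlib
import Pool.Agent.Lib.MP_21f624_an.Piece

set_option autoImplicit false

namespace Pool.Agent.MP_21f624_an

open Set Metric MeasureTheory Filter Topology

/-- A finite pairwise disjoint family of products of compact plane sets, with a width `δ`. -/
structure St where
  ι : Type
  fin : Finite ι
  A : ι → Set ℂ
  B : ι → Set ℂ
  hA : ∀ i, IsCompact (A i)
  hB : ∀ i, IsCompact (B i)
  disj : Pairwise fun i j => Disjoint (A i ×ˢ B i) (A j ×ˢ B j)
  δ : ℝ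
  δpos : 0 < δ

/-- The thickened union of a state. -/
def St.L (s : St) : Set (ℂ × ℂ) := ⋃ i, cthickening s.δ (s.A i ×ˢ s.B i)

/-- The refinement relation. -/
structure Ref (s s' : St) (τ : ℝ) : Prop where
  sub : s'.L ⊆ s.L
  hull : ∀ f : ℂ × ℂ → ℂ, Differentiable ℂ f → ∀ M : ℝ,
    (∀ i, ∀ x ∈ s'.A i ×ˢ s'.B i, ‖f x‖ ≤ M) → ∀ i, ∀ x ∈ s.A i ×ˢ s.B i, ‖f x‖ ≤ M
  sep : ∀ x ∈ s'.L, ∀ y ∈ s'.L, τ < dist x y →
    ∃ X Y : Set (ℂ × ℂ), IsClosed X ∧ IsClosed Y ∧ Disjoint X Y ∧ s'.L ⊆ X ∪ Y ∧ x ∈ X ∧ y ∈ Y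
  vol1 : (volume : Measure ℂ) (Prod.fst '' s'.L) ≤ ENNReal.ofReal τ
  vol2 : (volume : Measure ℂ) (Prod.snd '' s'.L) ≤ ENNReal.ofReal τ

theorem fst_cthickening {A B : Set ℂ} (δ : ℝ) :
    Prod.fst '' (cthickening δ (A ×ˢ B)) ⊆ cthickening δ A := by
  rintro z ⟨⟨z', w⟩, h, rfl⟩
  rw [mem_cthickening_iff] at h ⊢
  refine le_trans ?_ h
  refine le_infEDist.2 ?_
  rintro ⟨a, b⟩ ⟨ha, hb⟩
  refine (infEDist_le_edist_of_mem ha).trans ?_
  rw [Prod.edist_eq]
  exact le_max_left _ _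

theorem snd_cthickening {A B : Set ℂ} (δ : ℝ) :
    Prod.snd '' (cthickening δ (A ×ˢ B)) ⊆ cthickening δ B := by
  rintro z ⟨⟨z', w⟩, h, rfl⟩
  rw [mem_cthickening_iff] at h ⊢
  refine le_trans ?_ h
  refine le_infEDist.2 ?_
  rintro ⟨a, b⟩ ⟨ha, hb⟩
  refine (infEDist_le_edist_of_mem hb).trans ?_
  rw [Prod.edist_eq]
  exact le_max_right _ _

/-- product of thickenings -/
theorem prod_cthickening {A B A' B' : Set ℂ} {ε : ℝ} (hε : 0 ≤ ε) (hA : IsCompact A)
    (hB : IsCompact B) (h1 : A' ⊆ cthickening ε A) (h2 : B' ⊆ cthickening ε B) :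
    A' ×ˢ B' ⊆ cthickening ε (A ×ˢ B) := by
  rintro ⟨z, w⟩ ⟨hz, hw⟩
  have hz' := h1 hz
  have hw' := h2 hw
  rw [hA.cthickening_eq_biUnion_closedBall hε] at hz'
  rw [hB.cthickening_eq_biUnion_closedBall hε] at hw'
  obtain ⟨a, ha, hza⟩ := mem_iUnion₂.1 hz'
  obtain ⟨b, hb, hwb⟩ := mem_iUnion₂.1 hw'
  refine mem_cthickening_of_dist_le (z, w) (a, b) ε _ ⟨ha, hb⟩ ?_
  rw [Prod.dist_eq]
  exact max_le hza hwb

/-- small thickenings of a finite disjoint family are disjoint -/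
theorem eventually_disjoint {ι : Type} [Finite ι] {P : ι → Set (ℂ × ℂ)}
    (hc : ∀ i, IsCompact (P i)) (hd : Pairwise fun i j => Disjoint (P i) (P j)) :
    ∀ᶠ δ in 𝓝[>] (0 : ℝ), Pairwise fun i j =>
      Disjoint (cthickening δ (P i)) (cthickening δ (P j)) := by
  have : ∀ i j, ∀ᶠ δ in 𝓝[>] (0 : ℝ), i ≠ j →
      Disjoint (cthickening δ (P i)) (cthickening δ (P j)) := by
    intro i j
    by_cases hij : i = j
    · filter_upwards with δ h using absurd hij h
    · obtain ⟨δ₀, hδ₀, h⟩ := (hd hij).exists_cthickenings (hc i) (hc j).isClosed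
      filter_upwards [Ioo_mem_nhdsGT hδ₀] with δ hδ _
      exact h.mono (cthickening_mono hδ.2.le _) (cthickening_mono hδ.2.le _)
  have h2 := eventually_all.2 fun i => eventually_all.2 (this i)
  filter_upwards [h2] with δ hδ i j hij using hδ i j hij

/-- the measure of small thickenings of finitely many null compact sets is small -/
theorem eventually_small {ι : Type} [Finite ι] {P : ι → Set ℂ}
    (hc : ∀ i, IsCompact (P i)) (h0 : ∀ i, (volume : Measure ℂ) (P i) = 0) {τ : ℝ} (hτ : 0 < τ) :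
    ∀ᶠ δ in 𝓝[>] (0 : ℝ), (volume : Measure ℂ) (⋃ i, cthickening δ (P i)) ≤ ENNReal.ofReal τ := by
  have := Fintype.ofFinite ι
  have h1 : Tendsto (fun δ : ℝ => ∑ i, (volume : Measure ℂ) (cthickening δ (P i))) (𝓝 0)
      (𝓝 (∑ i : ι, (volume : Measure ℂ) (P i))) := by
    apply tendsto_finsetSum
    intro i _
    exact tendsto_measure_cthickening_of_isCompact (hc i)
  simp only [h0, Finset.sum_const_zero] at h1
  have h2 : ∀ᶠ δ in 𝓝 (0 : ℝ), ∑ i, (volume : Measure ℂ) (cthickening δ (P i)) <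
      ENNReal.ofReal τ := h1.eventually_lt_const (by simpa using hτ)
  filter_upwards [nhdsWithin_le_nhds h2] with δ hδ
  exact (measure_iUnion_fintype_le _ _).trans hδ.le

theorem exists_ref (s : St) {τ : ℝ} (hτ : 0 < τ) : ∃ s' : St, Ref s s' τ := by
  have := s.fin
  have hP : ∀ i, IsCompact (s.A i ×ˢ s.B i) := fun i => (s.hA i).prod (s.hB i)
  -- choose ε
  obtain ⟨ε, hε, hεδ, hετ, hdisj⟩ : ∃ ε : ℝ, 0 < ε ∧ ε ≤ s.δ / 2 ∧ ε ≤ τ / 8 ∧
      Pairwise fun i j => Disjoint (cthickening ε (s.A i ×ˢ s.B i))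
        (cthickening ε (s.A j ×ˢ s.B j)) := by
    have h1 := eventually_disjoint hP s.disj
    have h2 : ∀ᶠ ε in 𝓝[>] (0 : ℝ), ε ∈ Ioo 0 (s.δ / 2) := Ioo_mem_nhdsGT (by have := s.δpos; positivity)
    have h3 : ∀ᶠ ε in 𝓝[>] (0 : ℝ), ε ∈ Ioo 0 (τ / 8) := Ioo_mem_nhdsGT (by positivity)
    obtain ⟨ε, h1, h2, h3⟩ := (h1.and (h2.and h3)).exists
    exact ⟨ε, h2.1, h2.2.le, h3.2.le, h1⟩
  have hpc := fun i => piece (s.hA i) (s.hB i) hε
  choose κ hfin A' B' hA' hB' hdis hsA hsB hvA hvB hdA hdB hhull using hpc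
  have hfin' : Finite (Σ i, κ i) := inferInstance
  let A2 : (Σ i, κ i) → Set ℂ := fun p => A' p.1 p.2
  let B2 : (Σ i, κ i) → Set ℂ := fun p => B' p.1 p.2
  have hsub : ∀ p : (Σ i, κ i), A2 p ×ˢ B2 p ⊆ cthickening ε (s.A p.1 ×ˢ s.B p.1) := fun p =>
    prod_cthickening hε.le (s.hA _) (s.hB _) (hsA _ _) (hsB _ _)
  have hd2 : Pairwise fun p q : (Σ i, κ i) => Disjoint (A2 p ×ˢ B2 p) (A2 q ×ˢ B2 q) := by
    rintro ⟨i, k⟩ ⟨j, l⟩ hne
    by_cases hij : i = j
    · subst hij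
      exact hdis i (fun h => hne (congrArg (Sigma.mk i) h))
    · exact (hdisj hij).mono (hsub ⟨i, k⟩) (hsub ⟨j, l⟩)
  have hP2 : ∀ p, IsCompact (A2 p ×ˢ B2 p) := fun p => (hA' _ _).prod (hB' _ _)
  obtain ⟨δ, hδ, hδε, hdd, hv1, hv2⟩ : ∃ δ : ℝ, 0 < δ ∧ δ ≤ ε ∧
      (Pairwise fun p q => Disjoint (cthickening δ (A2 p ×ˢ B2 p))
        (cthickening δ (A2 q ×ˢ B2 q))) ∧
      (volume : Measure ℂ) (⋃ p, cthickening δ (A2 p)) ≤ ENNReal.ofReal τ ∧
      (volume : Measure ℂ) (⋃ p, cthickening δ (B2 p)) ≤ ENNReal.ofReal τ := by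
    have h1 := eventually_disjoint hP2 hd2
    have h2 : ∀ᶠ δ in 𝓝[>] (0 : ℝ), δ ∈ Ioo 0 ε := Ioo_mem_nhdsGT hε
    have h3 := eventually_small (P := A2) (fun p => hA' _ _) (fun p => hvA _ _) hτ
    have h4 := eventually_small (P := B2) (fun p => hB' _ _) (fun p => hvB _ _) hτ
    obtain ⟨δ, h1, h2, h3, h4⟩ := (h1.and (h2.and (h3.and h4))).exists
    exact ⟨δ, h2.1, h2.2.le, h1, h3, h4⟩
  refine ⟨⟨Σ i, κ i, hfin', A2, B2, fun p => hA' _ _, fun p => hB' _ _, hd2, δ, hδ⟩,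
    ?_, ?_, ?_, ?_, ?_⟩
  · -- sub
    refine iUnion_subset fun p => ?_
    refine subset_iUnion_of_subset p.1 ?_
    simp only
    refine (cthickening_subset_of_subset δ (hsub p)).trans ?_
    refine (cthickening_cthickening_subset hδ.le hε.le _).trans ?_
    exact cthickening_mono (by linarith) _
  · -- hull
    intro f hf M hM i x hx
    exact hhull i f hf M (fun k y hy => hM ⟨i, k⟩ y hy) x hx
  · -- sep
    intro x hx y hy hxy
    obtain ⟨p, hp⟩ := mem_iUnion.1 hx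
    simp only at hp
    have hdiam : ∀ u ∈ cthickening δ (A2 p ×ˢ B2 p), ∀ v ∈ cthickening δ (A2 p ×ˢ B2 p),
        dist u v ≤ 4 * ε + 2 * δ := by
      intro u hu v hv
      rw [(hP2 p).cthickening_eq_biUnion_closedBall hδ.le] at hu hv
      obtain ⟨u', hu', huu⟩ := mem_iUnion₂.1 hu
      obtain ⟨v', hv', hvv⟩ := mem_iUnion₂.1 hv
      rw [mem_closedBall] at huu hvv
      have h1 : dist u' v' ≤ 4 * ε := by
        rw [Prod.dist_eq]
        exact max_le (hdA _ _ _ hu'.1 _ hv'.1) (hdB _ _ _ hu'.2 _ hv'.2)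
      have h2 := dist_triangle4_right u v u' v'
      linarith [dist_triangle4 u u' v' v, dist_comm v' v]
    refine ⟨cthickening δ (A2 p ×ˢ B2 p), ⋃ q : {q // q ≠ p}, cthickening δ (A2 q ×ˢ B2 q),
      isClosed_cthickening, isClosed_iUnion_of_finite fun q => isClosed_cthickening, ?_, ?_, hp, ?_⟩
    · rw [disjoint_iUnion_right]
      intro q
      exact hdd (Ne.symm q.2)
    · intro z hz
      obtain ⟨q, hq⟩ := mem_iUnion.1 hz
      by_cases hqp : q = p
      · left; rw [← hqp]; exact hq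
      · right; exact mem_iUnion.2 ⟨⟨q, hqp⟩, hq⟩
    · obtain ⟨q, hq⟩ := mem_iUnion.1 hy
      by_cases hqp : q = p
      · exfalso
        rw [hqp] at hq
        have := hdiam x hp y hq
        linarith
      · exact mem_iUnion.2 ⟨⟨q, hqp⟩, hq⟩
  · refine (measure_mono ?_).trans hv1
    rw [St.L, image_iUnion]
    exact iUnion_mono fun p => fst_cthickening δ
  · refine (measure_mono ?_).trans hv2
    rw [St.L, image_iUnion]
    exact iUnion_mono fun p => snd_cthickening δ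

theorem St.isCompact_L (s : St) : IsCompact s.L := by
  have := s.fin
  exact isCompact_iUnion fun i => ((s.hA i).prod (s.hB i)).cthickening

theorem St.subset_L (s : St) (i : s.ι) : s.A i ×ˢ s.B i ⊆ s.L :=
  (self_subset_cthickening _).trans (subset_iUnion (fun i => cthickening s.δ (s.A i ×ˢ s.B i)) i)

/-- The starting state: the torus. -/
noncomputable def s0 : St where
  ι := Unit
  fin := inferInstance
  A := fun _ => sphere 0 1
  B := fun _ => sphere 0 1
  hA := fun _ => isCompact_sphere 0 1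
  hB := fun _ => isCompact_sphere 0 1
  disj := fun i j h => absurd (Subsingleton.elim i j) h
  δ := 1 / 2
  δpos := by norm_num

/-- The sequence of states. -/
noncomputable def seq : ℕ → St
  | 0 => s0
  | n + 1 => Classical.choose (exists_ref (seq n) (τ := 1 / ((n : ℝ) + 1)) (by positivity))

theorem seq_ref (n : ℕ) : Ref (seq n) (seq (n + 1)) (1 / ((n : ℝ) + 1)) :=
  Classical.choose_spec (exists_ref (seq n) (τ := 1 / ((n : ℝ) + 1)) (by positivity))

/-- The compact set. -/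
noncomputable def K : Set (ℂ × ℂ) := ⋂ n, (seq n).L

theorem L_antitone : Antitone fun n => (seq n).L :=
  antitone_nat_of_succ_le fun n => (seq_ref n).sub

theorem isCompact_K : IsCompact K := by
  refine (seq 0).isCompact_L.of_isClosed_subset ?_ (iInter_subset _ 0)
  exact isClosed_iInter fun n => (seq n).isCompact_L.isClosed

theorem hull_seq (n : ℕ) (f : ℂ × ℂ → ℂ) (hf : Differentiable ℂ f) (M : ℝ)
    (h : ∀ x ∈ (seq n).L, ‖f x‖ ≤ M) : ‖f (0, 0)‖ ≤ M := by
  have key : ∀ n, (∀ i, ∀ x ∈ (seq n).A i ×ˢ (seq n).B i, ‖f x‖ ≤ M) →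
      ∀ x ∈ (sphere 0 1 : Set ℂ) ×ˢ (sphere 0 1 : Set ℂ), ‖f x‖ ≤ M := by
    intro n
    induction n with
    | zero => intro h x hx; exact h () x hx
    | succ n ih => intro h; exact ih ((seq_ref n).hull f hf M h)
  have hT := key n fun i x hx => h x ((seq n).subset_L i hx)
  have h1 : ∀ z ∈ (sphere 0 1 : Set ℂ), ‖f (z, 0)‖ ≤ M := by
    intro z hz
    refine Complex.norm_le_of_forall_mem_frontier_norm_le (U := ball (0 : ℂ) 1)
      (f := fun w => f (z, w)) isBounded_ball ?_ ?_ ?_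
    · exact (hf.comp ((differentiable_const z).prodMk differentiable_id)).diffContOnCl
    · intro w hw
      rw [frontier_ball (0 : ℂ) one_ne_zero] at hw
      exact hT (z, w) ⟨hz, hw⟩
    · exact subset_closure (mem_ball_self one_pos)
  refine Complex.norm_le_of_forall_mem_frontier_norm_le (U := ball (0 : ℂ) 1)
      (f := fun z => f (z, 0)) isBounded_ball ?_ ?_ ?_
  · exact (hf.comp (differentiable_id.prodMk (differentiable_const 0))).diffContOnCl
  · intro w hw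
    rw [frontier_ball (0 : ℂ) one_ne_zero] at hw
    exact h1 w hw
  · exact subset_closure (mem_ball_self one_pos)

theorem hull_K (f : ℂ × ℂ → ℂ) (hf : Differentiable ℂ f) (M : ℝ)
    (h : ∀ x ∈ K, ‖f x‖ ≤ M) : ‖f (0, 0)‖ ≤ M := by
  refine le_of_forall_pos_le_add fun ε hε => ?_
  have hopen : IsOpen {x | ‖f x‖ < M + ε} := isOpen_lt hf.continuous.norm continuous_const
  have hsub : (⋂ n, (seq n).L) ⊆ {x | ‖f x‖ < M + ε} := fun x hx =>
    lt_of_le_of_lt (h x hx) (by linarith)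
  obtain ⟨n, hn⟩ := exists_subset_nhds_of_isCompact (V := fun n => (seq n).L)
    (directed_of_isDirected_le fun i j hij => L_antitone hij)
    (fun n => (seq n).isCompact_L) (fun x hx => hopen.mem_nhds (hsub hx))
  exact hull_seq n f hf (M + ε) fun x hx => (hn hx).le

theorem vol_fst_K : (volume : Measure ℂ) (Prod.fst '' K) = 0 := by
  have h : ∀ n : ℕ, (volume : Measure ℂ) (Prod.fst '' K) ≤ ENNReal.ofReal (1 / ((n : ℝ) + 1)) :=
    fun n => (measure_mono (image_mono (iInter_subset _ (n + 1)))).trans (seq_ref n).vol1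
  have ht : Tendsto (fun n : ℕ => ENNReal.ofReal (1 / ((n : ℝ) + 1))) atTop (𝓝 0) := by
    rw [← ENNReal.ofReal_zero]
    exact ENNReal.tendsto_ofReal tendsto_one_div_add_atTop_nhds_zero_nat
  exact le_antisymm (ge_of_tendsto' ht h) bot_le

theorem vol_snd_K : (volume : Measure ℂ) (Prod.snd '' K) = 0 := by
  have h : ∀ n : ℕ, (volume : Measure ℂ) (Prod.snd '' K) ≤ ENNReal.ofReal (1 / ((n : ℝ) + 1)) :=
    fun n => (measure_mono (image_mono (iInter_subset _ (n + 1)))).trans (seq_ref n).vol2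
  have ht : Tendsto (fun n : ℕ => ENNReal.ofReal (1 / ((n : ℝ) + 1))) atTop (𝓝 0) := by
    rw [← ENNReal.ofReal_zero]
    exact ENNReal.tendsto_ofReal tendsto_one_div_add_atTop_nhds_zero_nat
  exact le_antisymm (ge_of_tendsto' ht h) bot_le

theorem norm_fst_K {x : ℂ × ℂ} (hx : x ∈ K) : 1 / 2 ≤ ‖x.1‖ ∧ ‖x.1‖ ≤ 3 / 2 := by
  have h0 : x ∈ (seq 0).L := mem_iInter.1 hx 0
  obtain ⟨i, hi⟩ := mem_iUnion.1 h0
  have h1 : x.1 ∈ cthickening (1 / 2 : ℝ) (sphere (0 : ℂ) 1) :=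
    fst_cthickening (B := sphere (0 : ℂ) 1) _ ⟨x, hi, rfl⟩
  rw [(isCompact_sphere (0 : ℂ) 1).cthickening_eq_biUnion_closedBall (by norm_num)] at h1
  obtain ⟨a, ha, hxa⟩ := mem_iUnion₂.1 h1
  rw [mem_sphere_zero_iff_norm] at ha
  rw [mem_closedBall, dist_eq_norm] at hxa
  have h2 := norm_sub_norm_le x.1 a
  have h3 := norm_sub_norm_le a x.1
  rw [norm_sub_rev] at h3
  constructor <;> linarith

theorem totallyDisconnected_K : TotallyDisconnectedSpace K := by
  have : TotallySeparatedSpace K := by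
    refine ⟨?_⟩
    intro x _ y _ hxy
    have hd : 0 < dist (x : ℂ × ℂ) y := dist_pos.2 (fun h => hxy (Subtype.ext h))
    obtain ⟨n, hn⟩ := exists_nat_one_div_lt hd
    obtain ⟨X, Y, hX, hY, hXY, hsub, hxX, hyY⟩ := (seq_ref n).sep x (mem_iInter.1 x.2 _) y
      (mem_iInter.1 y.2 _) hn
    -- the complement of Y and the complement of X are open
    refine ⟨(Subtype.val ⁻¹' Yᶜ : Set K), (Subtype.val ⁻¹' Xᶜ : Set K),
      hY.isOpen_compl.preimage continuous_subtype_val,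
      hX.isOpen_compl.preimage continuous_subtype_val, ?_, ?_, ?_, ?_⟩
    · exact fun h => disjoint_left.1 hXY hxX h
    · exact fun h => disjoint_left.1 hXY h hyY
    · intro z _
      by_cases hz : (z : ℂ × ℂ) ∈ Y
      · right; exact fun h => disjoint_left.1 hXY h hz
      · left; exact hz
    · rw [disjoint_left]
      intro z hz1 hz2
      rcases hsub (mem_iInter.1 z.2 (n + 1)) with h | h
      · exact hz2 h
      · exact hz1 h
  infer_instance

end Pool.Agent.MP_21f624_an
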