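import Mathlib
import Pool.Agent.Lib.MP_21f624_an.Limit

set_option autoImplicit false

namespace Pool.Agent.MP_21f624_an

open Set Metric MeasureTheory Filter Topology TopologicalSpace

/-- A compact metrizable totally disconnected space embeds in the unit interval. -/
theorem exists_coding (X : Type) [TopologicalSpace X] [CompactSpace X] [T2Space X]
    [TotallyDisconnectedSpace X] [SecondCountableTopology X] :
    ∃ θ : X → ℝ, Continuous θ ∧ Function.Injective θ ∧ ∀ x, θ x ∈ Icc (0 : ℝ) 1 := by
  have hcount : Countable (Clopens X) := (Clopens.countable_iff_secondCountable).2 inferInstance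
  obtain ⟨e, he⟩ := exists_surjective_nat (Clopens X)
  classical
  let c : X → ℕ → Bool := fun x n => decide (x ∈ e n)
  refine ⟨fun x => (2 / 3) * Cardinal.cantorFunction (1 / 3) (c x), ?_, ?_, ?_⟩
  · apply continuous_const.mul
    unfold Cardinal.cantorFunction
    refine continuous_tsum (u := fun n => (1 / 3 : ℝ) ^ n) ?_ ?_ ?_
    · intro n
      have hcl : IsClopen {x | x ∈ e n} := (e n).isClopen
      have : (fun x => Cardinal.cantorFunctionAux (1 / 3) (c x) n) =
          fun x => if x ∈ e n then (1 / 3 : ℝ) ^ n else 0 := by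
        ext x
        by_cases h : x ∈ e n
        · simp [Cardinal.cantorFunctionAux, c, h]
        · simp [Cardinal.cantorFunctionAux, c, h]
      rw [this]
      refine Continuous.if (fun a ha => ?_) continuous_const continuous_const
      rw [hcl.frontier_eq] at ha
      exact absurd ha (notMem_empty a)
    · exact summable_geometric_of_lt_one (by norm_num) (by norm_num)
    · intro n x
      by_cases h : x ∈ e n
      · simp [Cardinal.cantorFunctionAux, c, h]
      · simp [Cardinal.cantorFunctionAux, c, h]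
  · intro x y hxy
    have h1 : Cardinal.cantorFunction (1 / 3) (c x) = Cardinal.cantorFunction (1 / 3) (c y) := by
      simp only at hxy
      linarith
    have h2 := Cardinal.cantorFunction_injective (by norm_num) (by norm_num) h1
    by_contra hne
    obtain ⟨U, hU, hxU, hyU⟩ := exists_isClopen_of_totally_separated hne
    obtain ⟨n, hn⟩ := he ⟨U, hU⟩
    have h3 := congrFun h2 n
    simp only [c, hn, decide_eq_decide] at h3
    exact hyU (h3.1 hxU)
  · intro x
    have h0 : 0 ≤ Cardinal.cantorFunction (1 / 3) (c x) :=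
      tsum_nonneg fun n => Cardinal.cantorFunctionAux_nonneg (by norm_num)
    have h1 : Cardinal.cantorFunction (1 / 3) (c x) ≤ 3 / 2 := by
      have h2 : Cardinal.cantorFunction (1 / 3) (c x) ≤
          Cardinal.cantorFunction (1 / 3) (fun _ => true) :=
        Cardinal.cantorFunction_le (by norm_num) (by norm_num) (fun _ _ => rfl)
      have h3 : Cardinal.cantorFunction (1 / 3) (fun _ => true) = 3 / 2 := by
        unfold Cardinal.cantorFunction Cardinal.cantorFunctionAux
        simp only [cond_true]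
        rw [tsum_geometric_of_lt_one (by norm_num) (by norm_num)]
        norm_num
      linarith
    constructor
    · positivity
    · linarith

/-- A differentiable curve in the plane is null. -/
theorem null_image {φ : ℝ → ℂ} {S : Set ℝ} (h : ∀ t ∈ S, DifferentiableAt ℝ φ t) :
    (volume : Measure ℂ) (φ '' S) = 0 := by
  have h1 : φ '' S = (fun z : ℂ => φ z.re) '' {z : ℂ | z.re ∈ S} := by
    ext w
    constructor
    · rintro ⟨t, ht, rfl⟩
      exact ⟨(t : ℂ), by simpa using ht, by simp⟩
    · rintro ⟨z, hz, rfl⟩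
      exact ⟨z.re, hz, rfl⟩
  rw [h1]
  refine addHaar_image_eq_zero_of_det_fderivWithin_eq_zero (volume : Measure ℂ)
    (f' := fun z => (fderiv ℝ φ z.re).comp Complex.reCLM) ?_ ?_
  · intro z hz
    exact ((h z.re hz).hasFDerivAt.comp z Complex.reCLM.hasFDerivAt).hasFDerivWithinAt
  · intro z hz
    rw [ContinuousLinearMap.det, LinearMap.det_eq_zero_iff_ker_ne_bot]
    intro hbot
    have : Complex.I ∈ LinearMap.ker
        (((fderiv ℝ φ z.re).comp Complex.reCLM : ℂ →L[ℝ] ℂ) : ℂ →ₗ[ℝ] ℂ) := by
      rw [LinearMap.mem_ker]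
      simp
    rw [hbot, Submodule.mem_bot] at this
    exact Complex.I_ne_zero this

/-- Averaging of `h` over `[t, t + δ t]`. -/
noncomputable def avg (δ : ℝ → ℝ) (h : ℝ → ℂ) (t : ℝ) : ℂ := ∫ s in (0 : ℝ)..1, h (t + δ t * s)

theorem continuous_avg {δ : ℝ → ℝ} {h : ℝ → ℂ} (hδ : Continuous δ) (hh : Continuous h) :
    Continuous (avg δ h) := by
  unfold avg
  apply intervalIntegral.continuous_parametric_intervalIntegral_of_continuous'
  fun_prop

theorem avg_of_zero {δ : ℝ → ℝ} {h : ℝ → ℂ} {t : ℝ} (ht : δ t = 0) : avg δ h t = h t := by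
  simp [avg, ht]

theorem avg_null {δ : ℝ → ℝ} {h : ℝ → ℂ} (hδ : Differentiable ℝ δ) (hh : Continuous h) :
    (volume : Measure ℂ) (avg δ h '' {t | δ t ≠ 0}) = 0 := by
  let Φ : ℝ → ℂ := fun x => ∫ s in (0 : ℝ)..x, h s
  have hΦ : Differentiable ℝ Φ := fun x =>
    (hh.integral_hasStrictDerivAt 0 x).hasDerivAt.differentiableAt
  have hint : ∀ a b : ℝ, IntervalIntegrable h volume a b := fun a b => hh.intervalIntegrable a b
  have heq : avg δ h '' {t | δ t ≠ 0} =
      (fun t => (δ t)⁻¹ • (Φ (t + δ t) - Φ t)) '' {t | δ t ≠ 0} := by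
    apply image_congr
    intro t ht
    have ht' : δ t ≠ 0 := ht
    unfold avg
    rw [intervalIntegral.integral_comp_add_mul _ ht']
    simp only [mul_zero, add_zero, mul_one]
    congr 1
    rw [← intervalIntegral.integral_interval_sub_left (hint 0 (t + δ t)) (hint 0 t)]
  rw [heq]
  apply null_image
  intro t ht
  have ht' : δ t ≠ 0 := ht
  have h1 : DifferentiableAt ℝ (fun t => (δ t)⁻¹) t := (hδ t).inv ht'
  have h2 : DifferentiableAt ℝ (fun t => Φ (t + δ t) - Φ t) t := by
    refine DifferentiableAt.sub ?_ (hΦ t)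
    exact (hΦ (t + δ t)).comp t (differentiableAt_id.add (hδ t))
  exact h1.smul h2

/-- The arc. -/
theorem exists_arc : ∃ g : ℝ → (Fin 4 → ℂ),
    ContinuousOn g (Icc (0 : ℝ) 1) ∧ InjOn g (Icc (0 : ℝ) 1) ∧
    (∀ j : Fin 4, (volume : Measure ℂ) ((fun z : Fin 4 → ℂ => z j) '' (g '' Icc (0 : ℝ) 1)) = 0) ∧
    ∀ x ∈ K, ![x.1, x.2, 0, 0] ∈ g '' Icc (0 : ℝ) 1 := by
  have := totallyDisconnected_K
  have hcK : CompactSpace K := isCompact_iff_compactSpace.1 isCompact_K
  obtain ⟨θ, hθc, hθi, hθr⟩ := exists_coding K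
  have hemb : IsClosedEmbedding θ := hθc.isClosedEmbedding hθi
  -- extensions of the coordinates
  obtain ⟨h1, hh1⟩ := ContinuousMap.exists_extension' hemb
    (⟨fun x : K => (x : ℂ × ℂ).1, by fun_prop⟩ : C(K, ℂ))
  obtain ⟨h2, hh2⟩ := ContinuousMap.exists_extension' hemb
    (⟨fun x : K => (x : ℂ × ℂ).2, by fun_prop⟩ : C(K, ℂ))
  have hx1 : ∀ x : K, h1 (θ x) = (x : ℂ × ℂ).1 := fun x => congrFun hh1 x
  have hx2 : ∀ x : K, h2 (θ x) = (x : ℂ × ℂ).2 := fun x => congrFun hh2 x
  obtain ⟨δ, hsupp, hsm, -⟩ := (hemb.isClosed_range.isOpen_compl).exists_contDiff_support_eq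
    (n := 1)
  have hδd : Differentiable ℝ δ := hsm.differentiable (by norm_num)
  have hδc : Continuous δ := hδd.continuous
  have hδ0 : ∀ t, δ t = 0 ↔ t ∈ range θ := by
    intro t
    have : t ∈ Function.support δ ↔ t ∈ (range θ)ᶜ := by rw [hsupp]
    rw [Function.mem_support, mem_compl_iff] at this
    exact not_iff_not.1 this
  let g : ℝ → (Fin 4 → ℂ) := fun t =>
    ![avg δ h1 t, avg δ h2 t, (δ t : ℂ), ((t * δ t : ℝ) : ℂ)]
  have hg : Continuous g := by
    apply continuous_pi
    intro j
    have hc1 := continuous_avg hδc h1.continuous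
    have hc2 := continuous_avg hδc h2.continuous
    fin_cases j
    · exact hc1
    · exact hc2
    · exact Complex.continuous_ofReal.comp hδc
    · exact Complex.continuous_ofReal.comp (continuous_id.mul hδc)
  have hgK : ∀ x : K, g (θ x) = ![(x : ℂ × ℂ).1, (x : ℂ × ℂ).2, 0, 0] := by
    intro x
    have h0 : δ (θ x) = 0 := (hδ0 _).2 (mem_range_self x)
    simp only [g]
    rw [avg_of_zero h0, avg_of_zero h0, hx1, hx2, h0]
    simp
  refine ⟨g, hg.continuousOn, ?_, ?_, ?_⟩
  · intro s _ t _ hst
    have e2 : δ s = δ t := by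
      have := congrFun hst 2
      simpa [g] using this
    have e3 : s * δ s = t * δ t := by
      have := congrFun hst 3
      have h : ((s * δ s : ℝ) : ℂ) = ((t * δ t : ℝ) : ℂ) := this
      exact_mod_cast h
    by_cases h0 : δ s = 0
    · obtain ⟨x, rfl⟩ := (hδ0 s).1 h0
      obtain ⟨y, rfl⟩ := (hδ0 t).1 (e2 ▸ h0)
      rw [hgK, hgK] at hst
      have f0 := congrFun hst 0
      have f1 := congrFun hst 1
      simp only [Matrix.cons_val_zero, Matrix.cons_val_one] at f0 f1
      have : (x : ℂ × ℂ) = y := Prod.ext f0 f1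
      rw [Subtype.ext this]
    · rw [← e2] at e3
      exact mul_right_cancel₀ h0 e3
  · have hreal : ∀ u : ℝ → ℝ, (volume : Measure ℂ) (range fun t => ((u t : ℝ) : ℂ)) = 0 := by
      intro u
      refine measure_mono_null ?_ (null_image (φ := fun t : ℝ => (t : ℂ)) (S := univ) ?_)
      · rintro _ ⟨t, rfl⟩
        exact ⟨u t, mem_univ _, rfl⟩
      · intro t _
        exact Complex.ofRealCLM.differentiableAt
    have hav : ∀ (h : ℝ → ℂ) (p : ℂ × ℂ → ℂ), Continuous h → (∀ x : K, h (θ x) = p x) →
        (volume : Measure ℂ) (p '' K) = 0 → (volume : Measure ℂ) (range (avg δ h)) = 0 := by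
      intro h p hh hp hv
      refine measure_mono_null ?_ (measure_union_null hv (avg_null hδd hh))
      rintro _ ⟨t, rfl⟩
      by_cases h0 : δ t = 0
      · left
        obtain ⟨x, rfl⟩ := (hδ0 t).1 h0
        rw [avg_of_zero h0]
        exact ⟨x, x.2, (hp x).symm⟩
      · right
        exact ⟨t, h0, rfl⟩
    intro j
    rw [image_image]
    fin_cases j
    · exact measure_mono_null (image_subset_range _ _)
        (hav h1 Prod.fst h1.continuous hx1 vol_fst_K)
    · exact measure_mono_null (image_subset_range _ _)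
        (hav h2 Prod.snd h2.continuous hx2 vol_snd_K)
    · exact measure_mono_null (image_subset_range _ _) (hreal δ)
    · exact measure_mono_null (image_subset_range _ _) (hreal fun t => t * δ t)
  · intro x hx
    exact ⟨θ ⟨x, hx⟩, hθr _, hgK ⟨x, hx⟩⟩

end Pool.Agent.MP_21f624_an
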